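import Pool.Agent.W39.LE.Stm

/-! Project LEN: formulas for paths and spiders. -/

set_option autoImplicit false

namespace Pool.Agent.W800.LE

open Complex Pool.W39.LE Pool.W39.LE.BT

theorem V_eq (s : ℝ) (k : ℕ) : ((Vs s k : ℝ) : ℂ)
    = (1 + (s : ℂ) ^ 2 * (-(s : ℂ) ^ 2) ^ k) / ((s : ℂ) ^ k * (1 + (s : ℂ) ^ 2)) := by
  unfold Vs
  push_cast
  rw [pow_succ (-(s : ℂ) ^ 2) k]
  congr 1
  ring

theorem z_eq (s : ℝ) : zx (xs s) = 2 + (1 - (s : ℂ) ^ 2) / s * I := by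
  unfold zx xs
  push_cast
  rfl

theorem one_add_ne {s : ℝ} : (1 : ℂ) + (s : ℂ) ^ 2 ≠ 0 := by
  have : (1 : ℝ) + s ^ 2 ≠ 0 := by positivity
  exact_mod_cast this

theorem pth_eq (s : ℝ) (hs : 0 < s) (k : ℕ) :
    Phi (zx (xs s)) (pth k) = zx (xs s) * (I ^ k *
      ((1 + (s : ℂ) ^ 2 * (-(s : ℂ) ^ 2) ^ k) / ((s : ℂ) ^ k * (1 + (s : ℂ) ^ 2)))) ∧
    Psi (zx (xs s)) (pth k) = I ^ k *
      ((1 + (s : ℂ) ^ 2 * (-(s : ℂ) ^ 2) ^ k - I * (s * (1 - (-(s : ℂ) ^ 2) ^ k))) /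
        ((s : ℂ) ^ k * (1 + (s : ℂ) ^ 2))) := by
  have h1 : (1 : ℂ) + (s : ℂ) ^ 2 ≠ 0 := one_add_ne
  have hs' : (s : ℂ) ≠ 0 := by exact_mod_cast hs.ne'
  induction k with
  | zero =>
    constructor
    · show zx (xs s) = _
      simp only [pow_zero, mul_one, one_mul]
      rw [div_self h1, mul_one]
    · show (1 : ℂ) = _
      simp only [pow_zero, mul_one, one_mul, sub_self, mul_zero, sub_zero]
      rw [div_self h1]
  | succ k ih =>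
    obtain ⟨ih1, ih2⟩ := ih
    have e1 : Phi (zx (xs s)) (pth (k + 1)) = zx (xs s) * Phi (zx (xs s)) (pth k)
        - 1 * Phi (zx (xs s)) (pth k) - zx (xs s) * Psi (zx (xs s)) (pth k) := rfl
    have e2 : Psi (zx (xs s)) (pth (k + 1)) = 1 * (Phi (zx (xs s)) (pth k)
        - Psi (zx (xs s)) (pth k)) := rfl
    rw [e1, e2, ih1, ih2, z_eq]
    rw [pow_succ (-(s : ℂ) ^ 2) k, pow_succ I k, pow_succ (s : ℂ) k]
    generalize (-(s : ℂ) ^ 2) ^ k = A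
    generalize I ^ k = J
    have hsk : (s : ℂ) ^ k ≠ 0 := pow_ne_zero k hs'
    generalize (s : ℂ) ^ k = S at hsk ⊢
    generalize (s : ℂ) = t at *
    constructor
    · field_simp
      ring
    · field_simp
      ring_nf
      simp only [I_sq]
      ring

theorem abs_pow_lt {s : ℝ} (hs : 0 < s) (hs1 : s < 1) (k : ℕ) :
    |(-s ^ 2) ^ k| ≤ 1 ∧ s ^ 2 < 1 := by
  have h1 : s ^ 2 < 1 := by nlinarith
  refine ⟨?_, h1⟩
  rw [abs_pow, abs_neg, abs_of_nonneg (sq_nonneg s)]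
  exact pow_le_one₀ (sq_nonneg s) h1.le

theorem one_add_pos {s : ℝ} (hs : 0 < s) (hs1 : s < 1) (k : ℕ) :
    0 < 1 + s ^ 2 * (-s ^ 2) ^ k := by
  obtain ⟨h1, h2⟩ := abs_pow_lt hs hs1 k
  have h3 : |s ^ 2 * (-s ^ 2) ^ k| < 1 := by
    rw [abs_mul, abs_of_nonneg (sq_nonneg s)]
    calc s ^ 2 * |(-s ^ 2) ^ k| ≤ s ^ 2 * 1 := by
          exact mul_le_mul_of_nonneg_left h1 (sq_nonneg s)
      _ < 1 := by linarith
  have := (abs_lt.1 h3).1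
  linarith

theorem one_add_ne' {s : ℝ} (hs : 0 < s) (hs1 : s < 1) (k : ℕ) :
    (1 : ℂ) + (s : ℂ) ^ 2 * (-(s : ℂ) ^ 2) ^ k ≠ 0 := by
  have := (one_add_pos hs hs1 k).ne'
  exact_mod_cast this

theorem V_pos {s : ℝ} (hs : 0 < s) (hs1 : s < 1) (k : ℕ) : 0 < Vs s k := by
  unfold Vs
  have h1 := one_add_pos hs hs1 k
  have h2 : 1 - (-s ^ 2) ^ (k + 1) = 1 + s ^ 2 * (-s ^ 2) ^ k := by ring
  rw [h2]
  positivity

theorem psi_succ (z : ℂ) (k : ℕ) : Psi z (pth (k + 1)) = Phi z (pth k) - Psi z (pth k) := by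
  have e2 : Psi z (pth (k + 1)) = 1 * (Phi z (pth k) - Psi z (pth k)) := rfl
  rw [e2, one_mul]

theorem alg2 (t A B S J : ℂ) (h1 : 1 + t ^ 2 ≠ 0) (hS : S ≠ 0)
    (h : 1 + t ^ 2 * (A * B) ≠ 0) :
    J * ((1 + t ^ 2 * (A * B) - I * (t * (1 - A * B))) / (S * (1 + t ^ 2))) =
    J * ((1 + t ^ 2 * (A * B)) / (S * (1 + t ^ 2))) *
      (1 - I * (t * (1 - A * B) / (1 + t ^ 2 * (A * B)))) := by
  generalize hD : 1 + t ^ 2 * (A * B) = D at h ⊢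
  field_simp

theorem alg3 (t A B Sa Sb Ja Jb : ℂ) (ht : t ≠ 0) (h1 : 1 + t ^ 2 ≠ 0) (hSa : Sa ≠ 0)
    (hSb : Sb ≠ 0) :
    (2 + (1 - t ^ 2) / t * I) * (Ja * ((1 + t ^ 2 * A) / (Sa * (1 + t ^ 2)))) *
      ((2 + (1 - t ^ 2) / t * I) * (Jb * ((1 + t ^ 2 * B) / (Sb * (1 + t ^ 2))))) -
      Ja * ((1 + t ^ 2 * A - I * (t * (1 - A))) / (Sa * (1 + t ^ 2))) *
      ((2 + (1 - t ^ 2) / t * I) * (Jb * ((1 + t ^ 2 * B) / (Sb * (1 + t ^ 2))))) -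
      (2 + (1 - t ^ 2) / t * I) * (Ja * ((1 + t ^ 2 * A) / (Sa * (1 + t ^ 2)))) *
      (Jb * ((1 + t ^ 2 * B - I * (t * (1 - B))) / (Sb * (1 + t ^ 2)))) =
    (2 + (1 - t ^ 2) / t * I) * (Ja * Jb * I *
      ((1 + t ^ 2 * (A * B * -t ^ 2)) / (Sa * Sb * t * (1 + t ^ 2)))) := by
  field_simp
  ring

theorem alg4 (t A B Sa Sb Ja Jb : ℂ) (ht : t ≠ 0) (h1 : 1 + t ^ 2 ≠ 0) (hSa : Sa ≠ 0)
    (hSb : Sb ≠ 0) (h : 1 + t ^ 2 * (A * B) ≠ 0) :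
    Ja * ((1 + t ^ 2 * A - I * (t * (1 - A))) / (Sa * (1 + t ^ 2))) *
      (Jb * ((1 + t ^ 2 * B - I * (t * (1 - B))) / (Sb * (1 + t ^ 2)))) =
    Ja * Jb * ((1 + t ^ 2 * (A * B)) / (Sa * Sb * (1 + t ^ 2))) *
      (1 - I * (t * (1 - A * B) / (1 + t ^ 2 * (A * B))) -
        (2 + (1 - t ^ 2) / t * I) * (t ^ 2 * ((1 - A) * (1 - B)) /
          ((1 + t ^ 2) * (1 + t ^ 2 * (A * B))))) := by
  have hI3 : I ^ 3 = -I := by rw [pow_succ, I_sq]; ring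
  have e : (1 - I * (t * (1 - A * B) / (1 + t ^ 2 * (A * B))) -
        (2 + (1 - t ^ 2) / t * I) * (t ^ 2 * ((1 - A) * (1 - B)) /
          ((1 + t ^ 2) * (1 + t ^ 2 * (A * B))))) = ((1 + t ^ 2) * (1 + t ^ 2 * (A * B)) -
          I * (t * (1 - A * B)) * (1 + t ^ 2) - (2 * t + (1 - t ^ 2) * I) * (t * ((1 - A) * (1 - B))))
          / ((1 + t ^ 2) * (1 + t ^ 2 * (A * B))) := by
    rw [eq_div_iff (mul_ne_zero h1 h)]
    have e1 : I * (t * (1 - A * B) / (1 + t ^ 2 * (A * B))) * ((1 + t ^ 2) * (1 + t ^ 2 * (A * B)))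
      = I * (t * (1 - A * B)) * (1 + t ^ 2) := by
      rw [mul_div_assoc', div_mul_eq_mul_div, div_eq_iff h]
      ring
    have e2 : (2 + (1 - t ^ 2) / t * I) * (t ^ 2 * ((1 - A) * (1 - B)) /
          ((1 + t ^ 2) * (1 + t ^ 2 * (A * B)))) * ((1 + t ^ 2) * (1 + t ^ 2 * (A * B)))
        = (2 * t + (1 - t ^ 2) * I) * (t * ((1 - A) * (1 - B))) := by
      rw [mul_assoc, div_mul_cancel₀ _ (mul_ne_zero h1 h)]
      field_simp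
    rw [sub_mul, sub_mul, e1, e2, one_mul]
  rw [e]
  generalize hD : 1 + t ^ 2 * (A * B) = D at h ⊢
  have hL : Ja * ((1 + t ^ 2 * A - I * (t * (1 - A))) / (Sa * (1 + t ^ 2))) *
      (Jb * ((1 + t ^ 2 * B - I * (t * (1 - B))) / (Sb * (1 + t ^ 2)))) =
      Ja * Jb * (((1 + t ^ 2 * A - I * (t * (1 - A))) * (1 + t ^ 2 * B - I * (t * (1 - B)))) /
        (Sa * Sb * (1 + t ^ 2) * (1 + t ^ 2))) := by
    field_simp
  have hR : Ja * Jb * (D / (Sa * Sb * (1 + t ^ 2))) * (((1 + t ^ 2) * D -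
          I * (t * (1 - A * B)) * (1 + t ^ 2) - (2 * t + (1 - t ^ 2) * I) * (t * ((1 - A) * (1 - B))))
          / ((1 + t ^ 2) * D)) = Ja * Jb * (((1 + t ^ 2) * D -
          I * (t * (1 - A * B)) * (1 + t ^ 2) - (2 * t + (1 - t ^ 2) * I) * (t * ((1 - A) * (1 - B))))
          / (Sa * Sb * (1 + t ^ 2) * (1 + t ^ 2))) := by
    field_simp
  rw [hL, hR]
  congr 2
  rw [← hD]
  ring_nf
  simp only [I_sq]
  ring

theorem algS (t z A B C Sa Sb Sc Ja Jb Jc : ℂ) (_ : t ≠ 0) (h1 : 1 + t ^ 2 ≠ 0) (hSa : Sa ≠ 0)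
    (hSb : Sb ≠ 0) (hSc : Sc ≠ 0) (h : 1 + t ^ 2 * (A * B * C) ≠ 0)
    (hz : t * z = 2 * t + (1 - t ^ 2) * I) :
    z * (Jc * Ja * ((1 + t ^ 2 * (C * A)) / (Sc * Sa * (1 + t ^ 2)))) *
      (Jb * ((1 + t ^ 2 * B - I * (t * (1 - B))) / (Sb * (1 + t ^ 2)))) -
      Jc * ((1 + t ^ 2 * C - I * (t * (1 - C))) / (Sc * (1 + t ^ 2))) *
      (Ja * ((1 + t ^ 2 * A - I * (t * (1 - A))) / (Sa * (1 + t ^ 2)))) *
      (z * (-I * (Jb * ((t * (1 - B)) / (Sb * (1 + t ^ 2)))))) =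
    z * (Ja * Jb * Jc * ((1 + t ^ 2 * (A * B * C)) / (Sa * Sb * Sc * (1 + t ^ 2)))) *
      (1 - I * z * (t ^ 3 * ((1 - A) * (1 - B) * (1 - C)) /
        ((1 + t ^ 2) ^ 2 * (1 + t ^ 2 * (A * B * C))))) := by
  have hL : z * (Jc * Ja * ((1 + t ^ 2 * (C * A)) / (Sc * Sa * (1 + t ^ 2)))) *
      (Jb * ((1 + t ^ 2 * B - I * (t * (1 - B))) / (Sb * (1 + t ^ 2)))) -
      Jc * ((1 + t ^ 2 * C - I * (t * (1 - C))) / (Sc * (1 + t ^ 2))) *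
      (Ja * ((1 + t ^ 2 * A - I * (t * (1 - A))) / (Sa * (1 + t ^ 2)))) *
      (z * (-I * (Jb * ((t * (1 - B)) / (Sb * (1 + t ^ 2)))))) =
      z * Ja * Jb * Jc * (((1 + t ^ 2 * (C * A)) * (1 + t ^ 2 * B - I * (t * (1 - B))) * (1 + t ^ 2) +
       (1 + t ^ 2 * C - I * (t * (1 - C))) * (1 + t ^ 2 * A - I * (t * (1 - A))) *
        (I * (t * (1 - B)))) / (Sa * Sb * Sc * (1 + t ^ 2) ^ 3)) := by
    field_simp
    ring
  have hR : z * (Ja * Jb * Jc * ((1 + t ^ 2 * (A * B * C)) / (Sa * Sb * Sc * (1 + t ^ 2)))) *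
      (1 - I * z * (t ^ 3 * ((1 - A) * (1 - B) * (1 - C)) /
        ((1 + t ^ 2) ^ 2 * (1 + t ^ 2 * (A * B * C))))) =
      z * Ja * Jb * Jc * (((1 + t ^ 2) ^ 2 * (1 + t ^ 2 * (A * B * C)) - I * (t * z) *
        (t ^ 2 * ((1 - A) * (1 - B) * (1 - C)))) / (Sa * Sb * Sc * (1 + t ^ 2) ^ 3)) := by
    have e3 : (1 - I * z * (t ^ 3 * ((1 - A) * (1 - B) * (1 - C)) /
        ((1 + t ^ 2) ^ 2 * (1 + t ^ 2 * (A * B * C))))) = ((1 + t ^ 2) ^ 2 *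
        (1 + t ^ 2 * (A * B * C)) - I * (t * z) *
        (t ^ 2 * ((1 - A) * (1 - B) * (1 - C)))) / ((1 + t ^ 2) ^ 2 *
        (1 + t ^ 2 * (A * B * C))) := by
      rw [eq_div_iff (mul_ne_zero (pow_ne_zero 2 h1) h), sub_mul, one_mul, mul_assoc (I * z),
        div_mul_cancel₀ _ (mul_ne_zero (pow_ne_zero 2 h1) h)]
      ring
    rw [e3]
    generalize 1 + t ^ 2 * (A * B * C) = D at h ⊢
    field_simp
  rw [hL, hR]
  congr 2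
  rw [hz]
  have hI3 : I ^ 3 = -I := by rw [pow_succ, I_sq]; ring
  ring_nf
  simp only [I_sq, hI3]
  ring

theorem phi_join (s : ℝ) (hs : 0 < s) (a b : ℕ) :
    Phi (zx (xs s)) (join (pth a) (pth b)) = zx (xs s) * (I ^ (a + b + 1) *
      ((1 + (s : ℂ) ^ 2 * (-(s : ℂ) ^ 2) ^ (a + b + 1)) /
        ((s : ℂ) ^ (a + b + 1) * (1 + (s : ℂ) ^ 2)))) := by
  have h1 : (1 : ℂ) + (s : ℂ) ^ 2 ≠ 0 := one_add_ne
  have hs' : (s : ℂ) ≠ 0 := by exact_mod_cast hs.ne'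
  obtain ⟨a1, a2⟩ := pth_eq s hs a
  obtain ⟨b1, b2⟩ := pth_eq s hs b
  have e1 : Phi (zx (xs s)) (join (pth a) (pth b)) = Phi (zx (xs s)) (pth a) *
        Phi (zx (xs s)) (pth b) - Psi (zx (xs s)) (pth a) * Phi (zx (xs s)) (pth b)
        - Phi (zx (xs s)) (pth a) * Psi (zx (xs s)) (pth b) := rfl
  rw [e1, a1, a2, b1, b2, z_eq]
  rw [pow_succ (-(s : ℂ) ^ 2) (a + b), pow_succ I (a + b), pow_succ (s : ℂ) (a + b),
    pow_add _ a b, pow_add _ a b, pow_add _ a b]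
  exact alg3 _ _ _ _ _ _ _ hs' h1 (pow_ne_zero a hs') (pow_ne_zero b hs')

theorem psi_join (z : ℂ) (a b : ℕ) :
    Psi z (join (pth a) (pth b)) = Psi z (pth a) * Psi z (pth (b + 1)) := by
  rw [psi_succ]
  rfl

theorem mrg : S_MRG := by
  intro s a b hs hs1 _
  have h1 : (1 : ℂ) + (s : ℂ) ^ 2 ≠ 0 := one_add_ne
  have hs' : (s : ℂ) ≠ 0 := by exact_mod_cast hs.ne'
  obtain ⟨p1, p2⟩ := pth_eq s hs (a + b + 1)
  have hne := one_add_ne' hs hs1 (a + b + 1)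
  refine ⟨V_pos hs hs1 _, ?_, ?_, ?_, ?_⟩
  · rw [p1, V_eq]
  · rw [p2, V_eq]
    unfold ets
    push_cast
    rw [add_assoc a b 1, pow_add (-(s : ℂ) ^ 2) a (b + 1)] at *
    exact alg2 _ _ _ _ _ h1 (pow_ne_zero _ hs') hne
  · rw [phi_join s hs, V_eq]
  · rw [psi_join, (pth_eq s hs a).2, (pth_eq s hs (b + 1)).2, V_eq, z_eq]
    unfold ets dls
    push_cast
    rw [add_assoc a b 1, pow_add (-(s : ℂ) ^ 2) a (b + 1)] at *
    rw [pow_add (s : ℂ) a (b + 1), pow_add I a (b + 1)]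
    exact alg4 _ _ _ _ _ _ _ hs' h1 (pow_ne_zero _ hs') (pow_ne_zero _ hs') hne

theorem spi : S_SPI := by
  intro s a b c hs hs1
  have h1 : (1 : ℂ) + (s : ℂ) ^ 2 ≠ 0 := one_add_ne
  have hs' : (s : ℂ) ≠ 0 := by exact_mod_cast hs.ne'
  have hne := one_add_ne' hs hs1 (a + 1 + (b + 1) + c)
  have hz : (s : ℂ) * zx (xs s) = 2 * s + (1 - (s : ℂ) ^ 2) * I := by
    rw [z_eq]
    field_simp
  have e1 : Phi (zx (xs s)) (join (join (pth c) (pth a)) (pth b)) =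
      Phi (zx (xs s)) (join (pth c) (pth a)) *
        (Phi (zx (xs s)) (pth b) - Psi (zx (xs s)) (pth b)) -
      Psi (zx (xs s)) (join (pth c) (pth a)) * Phi (zx (xs s)) (pth b) := by
    have : Phi (zx (xs s)) (join (join (pth c) (pth a)) (pth b)) =
      Phi (zx (xs s)) (join (pth c) (pth a)) * Phi (zx (xs s)) (pth b) -
      Psi (zx (xs s)) (join (pth c) (pth a)) * Phi (zx (xs s)) (pth b) -
      Phi (zx (xs s)) (join (pth c) (pth a)) * Psi (zx (xs s)) (pth b) := rfl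
    rw [this]
    ring
  have e2 : Phi (zx (xs s)) (pth b) = zx (xs s) * (-I * (I ^ (b + 1) *
      (((s : ℂ) * (1 - (-(s : ℂ) ^ 2) ^ (b + 1))) / ((s : ℂ) ^ (b + 1) * (1 + (s : ℂ) ^ 2))))) := by
    rw [(pth_eq s hs b).1]
    congr 1
    have h2 : -I * (I ^ (b + 1) * (((s : ℂ) * (1 - (-(s : ℂ) ^ 2) ^ (b + 1))) /
        ((s : ℂ) ^ (b + 1) * (1 + (s : ℂ) ^ 2)))) = -(I ^ 2) * I ^ b *
        ((s : ℂ) * (1 + (s : ℂ) ^ 2 * (-(s : ℂ) ^ 2) ^ b) /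
          ((s : ℂ) * ((s : ℂ) ^ b * (1 + (s : ℂ) ^ 2)))) := by
      rw [pow_succ I b, pow_succ (s : ℂ) b, pow_succ (-(s : ℂ) ^ 2) b]
      ring
    rw [h2, mul_div_mul_left _ _ hs', I_sq, neg_neg, one_mul]
  rw [e1, ← psi_succ, psi_join, e2, phi_join s hs, (pth_eq s hs (b + 1)).2,
    (pth_eq s hs c).2, (pth_eq s hs (a + 1)).2, (pth_eq s hs (a + b + c + 2)).1]
  unfold oms
  push_cast
  rw [show a + b + c + 2 = a + 1 + (b + 1) + c by ring]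
  rw [add_assoc c a 1, pow_add (-(s : ℂ) ^ 2) c (a + 1), pow_add (s : ℂ) c (a + 1),
    pow_add I c (a + 1), pow_add (-(s : ℂ) ^ 2) (a + 1 + (b + 1)) c,
    pow_add (s : ℂ) (a + 1 + (b + 1)) c, pow_add I (a + 1 + (b + 1)) c,
    pow_add (-(s : ℂ) ^ 2) (a + 1) (b + 1), pow_add (s : ℂ) (a + 1) (b + 1),
    pow_add I (a + 1) (b + 1)] at *
  exact algS _ _ _ _ _ _ _ _ _ _ _ hs' h1 (pow_ne_zero _ hs') (pow_ne_zero _ hs')
    (pow_ne_zero _ hs') hne hz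

end Pool.Agent.W800.LE
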