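import Pool.Agent.W39.LE.Stm

/-! Project LEN: small facts about paths. -/

set_option autoImplicit false

namespace Pool.Agent.W800.LE

open Complex Pool.W39.LE Pool.W39.LE.BT

theorem k14 : S_K14 := by
  refine ⟨[1, 1, 1, 3], [0.6181, 0.6181, 1.6181, 1.6181], ?_, ?_⟩
  · refine ⟨rfl, ?_, ?_, ?_⟩
    · intro p hp
      simp only [List.mem_cons, List.not_mem_nil, or_false] at hp
      rcases hp with rfl | rfl | rfl | rfl <;> norm_num
    · intro p hp
      simp only [List.mem_cons, List.not_mem_nil, or_false] at hp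
      rcases hp with rfl | rfl | rfl | rfl <;> norm_num
    · simp only [List.sum_cons, List.sum_nil]
      norm_num
  · intro x hx
    have e1 : Phi (zx x) (pth 4) = zx x * ((zx x - 2) ^ 4 - 3 * (zx x - 2) ^ 2 + 1) := by
      simp only [Phi, pth, val]
      ring
    have e2 : Phi (zx x) (join (join (join (join leaf leaf) leaf) leaf) leaf)
        = zx x * (zx x - 1) ^ 3 * (zx x - 5) := by
      simp only [Phi, val]
      ring
    have e3 : (zx x - 2) ^ 4 - 3 * (zx x - 2) ^ 2 + 1 = ((x ^ 4 + 3 * x ^ 2 + 1 : ℝ) : ℂ) := by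
      unfold zx
      have : (2 + (x : ℂ) * I - 2) ^ 2 = -((x : ℂ) ^ 2) := by
        ring_nf
        rw [I_sq]
        ring
      have h4 : (2 + (x : ℂ) * I - 2) ^ 4 = ((2 + (x : ℂ) * I - 2) ^ 2) ^ 2 := by ring
      rw [h4, this]
      push_cast
      ring
    have e4 : normSq (zx x) = x ^ 2 + 4 := by
      simp only [zx, normSq_apply, add_re, re_ofNat, mul_re, ofReal_re, I_re, mul_zero, ofReal_im,
        I_im, mul_one, sub_self, add_zero, add_im, im_ofNat, mul_im, zero_add]
      ring
    have e5 : normSq (zx x - 1) = x ^ 2 + 1 := by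
      simp only [zx, normSq_apply, add_re, re_ofNat, mul_re, ofReal_re, I_re, mul_zero, ofReal_im,
        I_im, mul_one, sub_self, add_zero, add_im, im_ofNat, mul_im, zero_add, sub_re, sub_im,
        one_re, one_im]
      ring
    have e6 : normSq (zx x - 5) = x ^ 2 + 9 := by
      simp only [zx, normSq_apply, add_re, re_ofNat, mul_re, ofReal_re, I_re, mul_zero, ofReal_im,
        I_im, mul_one, sub_self, add_zero, add_im, im_ofNat, mul_im, zero_add, sub_re, sub_im]
      ring
    rw [e1, e2, e3]
    simp only [map_mul, map_pow, e4, e5, e6, normSq_ofReal, PR, List.map_cons, List.map_nil,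
      List.prod_cons, List.prod_nil]
    have h1 : x ^ 4 + 3 * x ^ 2 + 1 ≤ (x ^ 2 + 0.6181 ^ 2) * (x ^ 2 + 1.6181 ^ 2) := by
      nlinarith [sq_nonneg x]
    have h2 : 0 ≤ x ^ 4 + 3 * x ^ 2 + 1 := by positivity
    have h3 : (x ^ 4 + 3 * x ^ 2 + 1) * (x ^ 4 + 3 * x ^ 2 + 1) ≤
        ((x ^ 2 + 0.6181 ^ 2) * (x ^ 2 + 1.6181 ^ 2)) *
        ((x ^ 2 + 0.6181 ^ 2) * (x ^ 2 + 1.6181 ^ 2)) := mul_le_mul h1 h1 h2 (by positivity)
    have h4 : 0 ≤ (x ^ 2 + 1) ^ 3 * (x ^ 2 + 9) * (x ^ 2 + 4) := by positivity
    have h5 := mul_le_mul_of_nonneg_left h3 h4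
    calc _ = (x ^ 2 + 1) ^ 3 * (x ^ 2 + 9) * (x ^ 2 + 4) *
          ((x ^ 4 + 3 * x ^ 2 + 1) * (x ^ 4 + 3 * x ^ 2 + 1)) := by ring
      _ ≤ _ := h5
      _ = _ := by ring

theorem psh : S_PSH := by
  intro n hn
  have hn0 : (0 : ℝ) < n := by exact_mod_cast hn
  have hterm : ∀ j ∈ Finset.range n, |pm n j - (2 - 2 / (n : ℝ))| = |pm n j - 2| +
      (if n ≤ 2 * j then 2 / (n : ℝ) else -(2 / (n : ℝ))) := by
    intro j hj
    rw [Finset.mem_range] at hj
    have hjn : (j : ℝ) < n := by exact_mod_cast hj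
    have hpi := Real.pi_pos
    have ha : 0 ≤ Real.pi * j / n := by positivity
    have hb : Real.pi * j / n ≤ Real.pi := by
      rw [div_le_iff₀ hn0]
      exact mul_le_mul_of_nonneg_left hjn.le hpi.le
    unfold pm
    split_ifs with h
    · have h' : (n : ℝ) ≤ 2 * j := by exact_mod_cast h
      have hc : Real.cos (Real.pi * j / n) ≤ 0 := by
        apply Real.cos_nonpos_of_pi_div_two_le_of_le
        · rw [div_le_div_iff₀ (by norm_num) hn0]
          nlinarith
        · linarith
      have h2 : 0 < 2 / (n : ℝ) := by positivity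
      rw [abs_of_nonneg (by linarith), abs_of_nonneg (by linarith)]
      ring
    · have h' : (2 * j + 1 : ℝ) ≤ n := by
        have : 2 * j + 1 ≤ n := by omega
        exact_mod_cast this
      have hc : 1 / (n : ℝ) ≤ Real.cos (Real.pi * j / n) := by
        have hs : Real.cos (Real.pi * j / n) = Real.sin (Real.pi / 2 - Real.pi * j / n) := by
          rw [Real.sin_pi_div_two_sub]
        have hx0 : 0 ≤ Real.pi / 2 - Real.pi * j / n := by
          rw [sub_nonneg, div_le_div_iff₀ hn0 (by norm_num)]
          nlinarith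
        have h3 := Real.mul_le_sin hx0 (by linarith)
        rw [← hs] at h3
        have h4 : 2 / Real.pi * (Real.pi / 2 - Real.pi * j / n) = 1 - 2 * j / n := by
          field_simp
        rw [h4] at h3
        have h5 : 1 / (n : ℝ) ≤ 1 - 2 * j / n := by
          rw [div_le_iff₀ hn0, sub_mul, div_mul_cancel₀ _ hn0.ne']
          linarith
        linarith
      have h2 : 2 / (n : ℝ) = 2 * (1 / (n : ℝ)) := by ring
      have h6 : 0 < 1 / (n : ℝ) := by positivity
      rw [abs_of_nonpos (by linarith), abs_of_nonpos (by linarith)]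
      ring
  rw [Finset.sum_congr rfl hterm, Finset.sum_add_distrib]
  congr 1
  have h7 : ∀ j ∈ Finset.range n, (if n ≤ 2 * j then 2 / (n : ℝ) else -(2 / (n : ℝ)))
      = 2 / (n : ℝ) * (2 * (if n ≤ 2 * j then 1 else 0) - 1) := by
    intro j _
    split_ifs <;> ring
  rw [Finset.sum_congr rfl h7, ← Finset.mul_sum, Finset.sum_sub_distrib, ← Finset.mul_sum,
    Finset.sum_boole, Finset.sum_const, Finset.card_range]
  have h8 : (Finset.filter (fun j => n ≤ 2 * j) (Finset.range n)).card = n / 2 := by
    have : Finset.filter (fun j => n ≤ 2 * j) (Finset.range n) = Finset.Ico (n - n / 2) n := by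
      ext j
      simp only [Finset.mem_filter, Finset.mem_range, Finset.mem_Ico]
      omega
    rw [this, Nat.card_Ico]
    omega
  rw [h8]
  simp

theorem edge : S_EDGE := by
  intro n hn
  have key : ∀ T : SimpleGraph (Fin n), T.IsTree → (Nat.card T.edgeSet : ℝ) = (n : ℝ) - 1 := by
    intro T hT
    have h1 := (SimpleGraph.isTree_iff_connected_and_card.1 hT).2
    rw [Nat.card_eq_fintype_card (α := Fin n), Fintype.card_fin] at h1
    have h2 : (Nat.card T.edgeSet : ℝ) + 1 = n := by exact_mod_cast h1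
    linarith
  refine ⟨?_, key⟩
  obtain ⟨m, rfl⟩ : ∃ m, n = m + 1 := ⟨n - 1, by omega⟩
  rw [SimpleGraph.isTree_iff_connected_and_card]
  refine ⟨SimpleGraph.pathGraph_connected m, ?_⟩
  rw [Nat.card_eq_fintype_card (α := Fin (m + 1)), Fintype.card_fin]
  congr 1
  have hinj : Function.Injective (fun i : Fin m => s(i.castSucc, i.succ)) := by
    intro i j hij
    simp only [Sym2.eq_iff] at hij
    rcases hij with ⟨h1, _⟩ | ⟨h1, h2⟩
    · exact Fin.castSucc_injective m h1
    · exfalso
      have h3 := congrArg Fin.val h1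
      have h4 := congrArg Fin.val h2
      simp only [Fin.val_castSucc, Fin.val_succ] at h3 h4
      omega
  have himg : (SimpleGraph.pathGraph (m + 1)).edgeSet =
      Set.range (fun i : Fin m => s(i.castSucc, i.succ)) := by
    ext e
    induction e using Sym2.ind with
    | _ u v =>
      rw [SimpleGraph.mem_edgeSet, SimpleGraph.pathGraph_adj]
      constructor
      · rintro (h | h)
        · refine ⟨⟨u.val, by omega⟩, ?_⟩
          rw [Sym2.eq_iff]
          left
          constructor <;> ext <;> simp [h]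
        · refine ⟨⟨v.val, by omega⟩, ?_⟩
          rw [Sym2.eq_iff]
          right
          constructor <;> ext <;> simp [h]
      · rintro ⟨i, hi⟩
        rw [Sym2.eq_iff] at hi
        rcases hi with ⟨h1, h2⟩ | ⟨h1, h2⟩
        · left
          rw [← h1, ← h2]
          simp
        · right
          rw [← h1, ← h2]
          simp
  rw [himg, Nat.card_range_of_injective hinj]
  simp

end Pool.Agent.W800.LE
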