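import Pool.Agent.W39.LE.Stm

/-! Project LEN: the spectrum of the path. -/

set_option autoImplicit false

namespace Pool.Agent.W800.LE

open Complex Pool.W39.LE Pool.W39.LE.BT Polynomial

theorem val_pth (z : ℂ) (k : ℕ) :
    Phi z (pth k) = z * eval ((z - 2) / 2) (Chebyshev.U ℂ (k : ℤ)) ∧
    Psi z (pth k) = eval ((z - 2) / 2) (Chebyshev.U ℂ (k : ℤ)) +
      eval ((z - 2) / 2) (Chebyshev.U ℂ ((k : ℤ) - 1)) := by
  induction k with
  | zero =>
    constructor
    · show z = _
      simp
    · show (1 : ℂ) = _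
      simp
  | succ k ih =>
    obtain ⟨ih1, ih2⟩ := ih
    have e1 : Phi z (pth (k + 1)) = z * Phi z (pth k) - 1 * Phi z (pth k) -
      z * Psi z (pth k) := rfl
    have e2 : Psi z (pth (k + 1)) = 1 * (Phi z (pth k) - Psi z (pth k)) := rfl
    rw [e1, e2, ih1, ih2]
    push_cast
    rw [Chebyshev.U_add_one, add_sub_cancel_right]
    simp only [eval_sub, eval_mul, eval_ofNat, eval_X]
    constructor <;> ring

theorem U_prod (m : ℕ) (z : ℂ) : eval ((z - 2) / 2) (Chebyshev.U ℂ (m : ℤ)) =
    ∏ k ∈ Finset.range m, (z - 2 - 2 * ((Real.cos ((k + 1) * Real.pi / (m + 1)) : ℝ) : ℂ)) := by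
  have hroots := Chebyshev.roots_U_real m
  have hinj : Set.InjOn (fun (k : ℕ) => Real.cos ((k + 1) * Real.pi / (m + 1)))
      (Finset.range m) :=
    (Finset.range m).nodup_map_iff_injOn.mp (Chebyshev.roots_U_real_nodup m)
  have hcard : Multiset.card (Chebyshev.U ℝ (m : ℤ)).roots = (Chebyshev.U ℝ (m : ℤ)).natDegree := by
    rw [hroots, Finset.card_val, Finset.card_image_of_injOn hinj, Finset.card_range,
      Chebyshev.natDegree_U_natCast]
  have h1 := C_leadingCoeff_mul_prod_multiset_X_sub_C hcard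
  rw [Chebyshev.leadingCoeff_U_natCast, hroots] at h1
  have h2 : ((Finset.range m).image (fun (k : ℕ) => Real.cos ((k + 1) * Real.pi / (m + 1)))).val
      = (Finset.range m).val.map (fun (k : ℕ) => Real.cos ((k + 1) * Real.pi / (m + 1))) :=
    Finset.image_val_of_injOn hinj
  rw [h2, Multiset.map_map] at h1
  have h3 : Chebyshev.U ℝ (m : ℤ) = C (2 ^ m : ℝ) * ∏ k ∈ Finset.range m,
      (X - C (Real.cos ((k + 1) * Real.pi / (m + 1)))) := h1.symm
  have h4 := Chebyshev.map_U (algebraMap ℝ ℂ) (m : ℤ)
  rw [← h4, h3, Polynomial.map_mul, Polynomial.map_prod, eval_mul, eval_prod]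
  simp only [Polynomial.map_sub, map_C, map_X, eval_sub, eval_X, eval_C]
  have h5 : (algebraMap ℝ ℂ) (2 ^ m) = ∏ _k ∈ Finset.range m, (2 : ℂ) := by
    rw [Finset.prod_const, Finset.card_range, map_pow]
    simp
  rw [h5, ← Finset.prod_mul_distrib]
  apply Finset.prod_congr rfl
  intro k _
  have h6 : (algebraMap ℝ ℂ) (Real.cos ((k + 1) * Real.pi / (m + 1)))
      = ((Real.cos ((k + 1) * Real.pi / (m + 1)) : ℝ) : ℂ) := rfl
  rw [h6]
  ring

theorem pphi : S_PPHI := by
  intro n z hn
  obtain ⟨m, rfl⟩ : ∃ m, n = m + 1 := ⟨n - 1, by omega⟩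
  rw [Nat.add_sub_cancel, (val_pth z m).1, U_prod, Finset.prod_range_succ', mul_comm]
  congr 1
  · rw [← Finset.prod_range_reflect]
    apply Finset.prod_congr rfl
    intro k hk
    rw [Finset.mem_range] at hk
    have h1 : ((m - 1 - k : ℕ) : ℝ) = (m : ℝ) - 1 - k := by
      rw [Nat.cast_sub (by omega), Nat.cast_sub (by omega)]
      simp
    have h2 : Real.cos ((((m - 1 - k : ℕ) : ℝ) + 1) * Real.pi / (m + 1))
        = -Real.cos (Real.pi * ((k + 1 : ℕ) : ℝ) / ((m + 1 : ℕ) : ℝ)) := by
      rw [← Real.cos_pi_sub]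
      congr 1
      rw [h1]
      push_cast
      have : (m : ℝ) + 1 ≠ 0 := by positivity
      field_simp
      ring
    rw [h2]
    unfold pm
    push_cast
    ring
  · unfold pm
    simp

theorem pm_inj (n : ℕ) (hn : 1 ≤ n) : Set.InjOn (pm n) (Finset.range n) := by
  intro i hi j hj hij
  have hn0 : (0 : ℝ) < n := by exact_mod_cast hn
  have hm : ∀ k ∈ Finset.range n, Real.pi * (k : ℝ) / n ∈ Set.Icc 0 Real.pi := by
    intro k hk
    rw [Finset.mem_range] at hk
    have hk' : (k : ℝ) < n := by exact_mod_cast hk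
    have hpi := Real.pi_pos
    refine ⟨by positivity, ?_⟩
    rw [div_le_iff₀ hn0]
    exact mul_le_mul_of_nonneg_left hk'.le hpi.le
  have h1 : Real.cos (Real.pi * i / n) = Real.cos (Real.pi * j / n) := by
    unfold pm at hij
    linarith
  have h2 := Real.injOn_cos (hm i hi) (hm j hj) h1
  have hpi := Real.pi_pos.ne'
  field_simp at h2
  exact_mod_cast h2

open Classical in
theorem eigvec (n : ℕ) (hn : 1 ≤ n) (j : ℕ) (hj : j < n) :
    ∃ v : Fin n → ℝ, v ≠ 0 ∧
      ((SimpleGraph.pathGraph n).lapMatrix ℝ).mulVec v = fun i => pm n j * v i := by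
  have hn0 : (0 : ℝ) < n := by exact_mod_cast hn
  set θ : ℝ := Real.pi * j / n with hθ
  set c : ℝ → ℝ := fun m => Real.cos ((2 * m + 1) * θ / 2) with hc
  refine ⟨fun i => c (i : ℕ), ?_, ?_⟩
  · intro h
    have h1 := congrFun h ⟨0, by omega⟩
    simp only [hc, Pi.zero_apply, Nat.cast_zero, mul_zero, zero_add, one_mul] at h1
    have hjn : (j : ℝ) < n := by exact_mod_cast hj
    have hpi := Real.pi_pos
    have h2 : 0 < Real.cos (θ / 2) := by
      apply Real.cos_pos_of_mem_Ioo
      constructor
      · have : 0 ≤ θ := by positivity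
        linarith
      · have : θ < Real.pi := by
          rw [hθ, div_lt_iff₀ hn0]
          exact mul_lt_mul_of_pos_left hjn hpi
        linarith
    linarith
  · ext i
    rw [SimpleGraph.lapMatrix_mulVec_apply]
    have h1 : ((SimpleGraph.pathGraph n).degree i : ℝ) * c (i : ℕ) -
        ∑ u ∈ (SimpleGraph.pathGraph n).neighborFinset i, c (u : ℕ) =
        ∑ u ∈ (SimpleGraph.pathGraph n).neighborFinset i, (c (i : ℕ) - c (u : ℕ)) := by
      rw [Finset.sum_sub_distrib, Finset.sum_const, nsmul_eq_mul,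
        SimpleGraph.card_neighborFinset_eq_degree]
    rw [h1]
    have h2 : ∑ u ∈ (SimpleGraph.pathGraph n).neighborFinset i, (c (i : ℕ) - c (u : ℕ)) =
        ∑ u : Fin n, ((if (i : ℕ) + 1 = (u : ℕ) then (c (i : ℕ) - c ((i : ℕ) + 1)) else 0) +
          (if (u : ℕ) + 1 = (i : ℕ) then (c (i : ℕ) - c ((i : ℕ) - 1)) else 0)) := by
      rw [SimpleGraph.neighborFinset_eq_filter, Finset.sum_filter]
      apply Finset.sum_congr rfl
      intro u _
      rw [SimpleGraph.pathGraph_adj]
      by_cases ha : (i : ℕ) + 1 = (u : ℕ)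
      · have hb : ¬ ((u : ℕ) + 1 = (i : ℕ)) := by omega
        rw [if_pos (Or.inl ha), if_pos ha, if_neg hb, add_zero, ← ha]
        push_cast
        rfl
      · by_cases hb : (u : ℕ) + 1 = (i : ℕ)
        · rw [if_pos (Or.inr hb), if_neg ha, if_pos hb, zero_add, ← hb]
          push_cast
          congr 2
          ring
        · rw [if_neg (by tauto), if_neg ha, if_neg hb, add_zero]
    rw [h2, Finset.sum_add_distrib]
    have h3 : ∑ u : Fin n, (if (i : ℕ) + 1 = (u : ℕ) then (c (i : ℕ) - c ((i : ℕ) + 1)) else 0)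
        = c (i : ℕ) - c ((i : ℕ) + 1) := by
      by_cases hi : (i : ℕ) + 1 < n
      · rw [Finset.sum_eq_single (⟨(i : ℕ) + 1, hi⟩ : Fin n)]
        · simp
        · intro b _ hb
          rw [if_neg]
          intro h
          apply hb
          ext
          exact h.symm
        · intro h
          exact absurd (Finset.mem_univ _) h
      · have hi' : (i : ℕ) + 1 = n := by have := i.2; omega
        rw [Finset.sum_eq_zero]
        · have h4 : ((i : ℕ) : ℝ) = n - 1 := by
            have : ((i : ℕ) : ℝ) + 1 = n := by exact_mod_cast hi'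
            linarith
          simp only [hc]
          rw [h4]
          have h5 : (2 * ((n : ℝ) - 1) + 1) * θ / 2 = j * Real.pi - θ / 2 := by
            rw [hθ]
            field_simp
            ring
          have h6 : (2 * ((n : ℝ) - 1 + 1) + 1) * θ / 2 = j * Real.pi + θ / 2 := by
            rw [hθ]
            field_simp
            ring
          rw [h5, h6, Real.cos_sub, Real.cos_add, Real.sin_nat_mul_pi]
          ring
        · intro u _
          rw [if_neg]
          have := u.2
          omega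
    have h4 : ∑ u : Fin n, (if (u : ℕ) + 1 = (i : ℕ) then (c (i : ℕ) - c ((i : ℕ) - 1)) else 0)
        = c (i : ℕ) - c ((i : ℕ) - 1) := by
      by_cases hi : 1 ≤ (i : ℕ)
      · have hlt : (i : ℕ) - 1 < n := by have := i.2; omega
        rw [Finset.sum_eq_single (⟨(i : ℕ) - 1, hlt⟩ : Fin n)]
        · rw [if_pos]
          show (i : ℕ) - 1 + 1 = (i : ℕ)
          omega
        · intro b _ hb
          rw [if_neg]
          intro h
          apply hb
          ext
          show (b : ℕ) = (i : ℕ) - 1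
          omega
        · intro h
          exact absurd (Finset.mem_univ _) h
      · have hi' : (i : ℕ) = 0 := by omega
        rw [Finset.sum_eq_zero]
        · simp only [hc, hi']
          have h5 : (2 * ((0 : ℕ) : ℝ) + 1) * θ / 2 = θ / 2 := by
            push_cast
            ring
          have h6 : (2 * (((0 : ℕ) : ℝ) - 1) + 1) * θ / 2 = -(θ / 2) := by
            push_cast
            ring
          rw [h5, h6, Real.cos_neg, sub_self]
        · intro u _
          rw [if_neg]
          omega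
    rw [h3, h4]
    simp only [hc, pm]
    rw [← hθ]
    have h7 : (2 * (((i : ℕ) : ℝ) + 1) + 1) * θ / 2 = (2 * ((i : ℕ) : ℝ) + 1) * θ / 2 + θ := by ring
    have h8 : (2 * (((i : ℕ) : ℝ) - 1) + 1) * θ / 2 = (2 * ((i : ℕ) : ℝ) + 1) * θ / 2 - θ := by ring
    rw [h7, h8, Real.cos_add, Real.cos_sub]
    ring

theorem pspec : S_PSPEC := by
  intro n hn
  classical
  unfold spec
  symm
  apply Multiset.eq_of_le_of_card_le
  · rw [Multiset.le_iff_subset]
    · intro a ha
      rw [Multiset.mem_map] at ha
      obtain ⟨j, hj, rfl⟩ := ha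
      rw [Multiset.mem_range] at hj
      rw [Polynomial.mem_roots (Matrix.charpoly_monic _).ne_zero, IsRoot.def, Matrix.eval_charpoly]
      obtain ⟨v, hv0, hv⟩ := eigvec n hn j hj
      rw [← Matrix.exists_mulVec_eq_zero_iff]
      refine ⟨v, hv0, ?_⟩
      rw [Matrix.sub_mulVec]
      have h1 : (Matrix.scalar (Fin n) (pm n j)).mulVec v = fun i => pm n j * v i := by
        ext i
        rw [Matrix.scalar_apply, Matrix.mulVec_diagonal]
      rw [h1]
      convert sub_self _
    · exact Multiset.Nodup.map_on (fun i hi j hj h => pm_inj n hn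
        (by simpa using hi) (by simpa using hj) h) (Multiset.nodup_range n)
  · refine (Polynomial.card_roots' _).trans ?_
    rw [Matrix.charpoly_natDegree_eq_dim]
    simp

end Pool.Agent.W800.LE
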